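import Mathlib
import Pool.Agent.H669R3.AccX

/-!
# Singularity of matrices `∑ x^a A_a` with few monomials and accretive coefficient matrices

The determinants of polynomial matrices `∑ g_k(x) A_k`, where the `g_k` are real polynomials with
monomials in a set `S`, positive at the points with positive coordinates, and the matrices `A_k`
are accretive in unknown coordinates `P, Q`, are hit by explicit sets of size polynomial in the
number of the variables, `|S|^c` and the logarithm of the exponents, whatever the size of the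
matrices is; `c` is the dimension of the core modulo the vectors killed by the matrices of the
non-constant `g_k`.  The same holds for a class which contains also all sparse polynomials and all
determinants with diagonally dominant coefficients and is closed under products, powers, factors
and sums of nonnegative polynomials.
-/

set_option autoImplicit false

namespace Pool.Agent.Results.MP_08e617_lc.AccretiveMonomials

open Matrix MvPolynomial H669R3.Acc

/-- `SCls N D s f`: the polynomial `f` is in the class of index `s`. -/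
inductive SCls {n : ℕ} (N D : ℕ) : ℕ → MvPolynomial (Fin n) ℂ → Prop
  /-- polynomials with at most `N` monomials and exponents at most `D` -/
  | sparse {f : MvPolynomial (Fin n) ℂ} (hN : f.support.card ≤ N)
      (hD : ∀ a ∈ f.support, ∀ i, a i ≤ D) : SCls N D 1 f
  /-- polynomials without zeros with positive coordinates -/
  | positive {f : MvPolynomial (Fin n) ℂ}
      (h : ∀ x : Fin n → ℝ, (∀ i, 0 < x i) → eval (fun i => (x i : ℂ)) f ≠ 0) : SCls N D 0 f
  /-- determinants with accretive matrices in unknown coordinates -/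
  | accretive {q c K : ℕ} (g : Fin K → MvPolynomial (Fin n) ℝ) (S : Finset (Fin n →₀ ℕ))
      (A : Fin K → Matrix (Fin q) (Fin q) ℂ) (P Q : Matrix (Fin q) (Fin q) ℂ)
      (hg : ∀ k, PosOn (g k)) (hS : ∀ k, (g k).support ⊆ S) (hD : ∀ a ∈ S, ∀ i, a i * c ≤ D)
      (hN : S.card ^ c ≤ N) (hP : P.det ≠ 0) (hQ : Q.det ≠ 0)
      (hA : ∀ k, Accretive (P * A k * Q))
      (hc : Module.finrank ℂ (core fun k => P * A k * Q) =
        Module.finrank ℂ (core₀ g fun k => P * A k * Q) + c) : SCls N D 1 (matPoly g A).det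
  /-- determinants with diagonally dominant matrices in unknown coordinates -/
  | dominant {q K : ℕ} (g : Fin K → MvPolynomial (Fin n) ℝ)
      (A : Fin K → Matrix (Fin q) (Fin q) ℂ) (P Q : Matrix (Fin q) (Fin q) ℂ)
      (hg : ∀ k, PosOn (g k)) (hP : P.det ≠ 0) (hQ : Q.det ≠ 0)
      (hA : ∀ k, Dominant (P * A k * Q)) : SCls N D 0 (matPoly g A).det
  | mul {s s' : ℕ} {f f' : MvPolynomial (Fin n) ℂ} (h : SCls N D s f) (h' : SCls N D s' f') :
      SCls N D (s + s') (f * f')
  | pow {s : ℕ} {f : MvPolynomial (Fin n) ℂ} (h : SCls N D s f) (e : ℕ) : SCls N D s (f ^ e)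
  | factor {s : ℕ} {f h : MvPolynomial (Fin n) ℂ} (hh : SCls N D s h) (h0 : h ≠ 0)
      (hf : f ∣ h) : SCls N D s f
  | add {s : ℕ} {f f' : MvPolynomial (Fin n) ℂ} (h : SCls N D s f) (h' : SCls N D s f')
      (hf : NonnegOn f) (hf' : NonnegOn f') : SCls N D s (f + f')
  | mono {s s' : ℕ} {f : MvPolynomial (Fin n) ℂ} (h : SCls N D s f) (hs : s ≤ s') : SCls N D s' f

theorem stame_zero {n N D : ℕ} {f : MvPolynomial (Fin n) ℂ}
    (h : ∀ x : Fin n → ℝ, (∀ i, 0 < x i) → eval (fun i => (x i : ℂ)) f ≠ 0) : STame N D 0 f :=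
  Or.inr ⟨[], le_refl _, by simp, fun x hx _ => h x hx⟩

theorem SCls.stame {n N D s : ℕ} {f : MvPolynomial (Fin n) ℂ} (h : SCls N D s f) :
    STame N D s f := by
  induction h with
  | sparse hN hD => exact stame_sparse hN hD
  | positive h => exact stame_zero h
  | accretive g S A P Q hg hS hD hN hP hQ hA hc =>
    exact stame_accretive g hg S hS hD hN A hP hQ hA hc
  | dominant g A P Q hg hP hQ hA =>
    by_cases hne : (matPoly g A).det = 0
    · exact Or.inl hne
    · refine stame_zero fun x hx => ?_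
      rw [H669R3.Acc.eval_det]
      exact (det_value_mul g A hP hQ _).mp
        (dominant_pos g hg _ hA (det_ne_zero_mul g A hP hQ hne) x hx)
  | mul _ _ ih ih' => exact ih.mul ih'
  | pow _ e ih => exact ih.pow e
  | factor _ h0 hf ih => exact ih.factor h0 hf
  | add _ _ hf hf' ih ih' => exact ih.add ih' hf hf'
  | mono _ hs ih => exact ih.mono hs

/-- the points `(t ^ (r ^ i mod p))_i` with `p ∈ P`, `r < p` and `1 ≤ t ≤ 2 s N + 1` -/
def pts (n N s : ℕ) (P : Finset ℕ) : Finset (Fin n → ℕ) :=
  P.biUnion fun p => (Finset.range p).biUnion fun r =>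
    (Finset.range (s * (2 * N) + 1)).image fun t => fun i => (t + 1) ^ (r ^ (i : ℕ) % p)

theorem pts_eq (n N D s : ℕ) (P : Finset ℕ) :
    pts n N s P = Pool.Agent.H669R3.FewNeg.H (fun _ : Fin n => 0) N 0 D s P := by
  unfold pts Pool.Agent.H669R3.FewNeg.H
  simp only [mul_zero, add_zero, zero_add]

/-- **Result.** (1) If `P` is a finite set of primes larger than `s N n`, every `0 < m ≤ D` is
divisible by at most `b` of them and `s N b < |P|`, then every nonzero `f` in the class of index `s`
is nonzero at one of the points `pts n N s P`. (2), (3) The number and the size of the points.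
(4) A single prime `p ≤ 2 (D + s N n + 1)` suffices. -/
theorem result (n N D s : ℕ) :
    (∀ (P : Finset ℕ) (b : ℕ), (∀ p ∈ P, p.Prime ∧ s * N * n < p) →
      (∀ m, 0 < m → m ≤ D → (P.filter (· ∣ m)).card ≤ b) → s * N * b < P.card →
      ∀ f : MvPolynomial (Fin n) ℂ, SCls N D s f →
        (f ≠ 0 ↔ ∃ x ∈ pts n N s P, eval (fun i => ((x i : ℕ) : ℂ)) f ≠ 0)) ∧
    (∀ P : Finset ℕ, (pts n N s P).card ≤ (∑ p ∈ P, p) * (s * (2 * N) + 1)) ∧
    (∀ (P : Finset ℕ), ∀ x ∈ pts n N s P, ∃ p ∈ P, ∀ i, 0 < x i ∧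
      x i ≤ (s * (2 * N) + 1) ^ p) ∧
    (∃ p : ℕ, p.Prime ∧ D < p ∧ p ≤ 2 * (D + s * N * n + 1) ∧
      ∀ f : MvPolynomial (Fin n) ℂ, SCls N D s f →
        (f ≠ 0 ↔ ∃ x ∈ pts n N s {p}, eval (fun i => ((x i : ℕ) : ℂ)) f ≠ 0)) := by
  have h1 : ∀ (P : Finset ℕ) (b : ℕ), (∀ p ∈ P, p.Prime ∧ s * N * n < p) →
      (∀ m, 0 < m → m ≤ D → (P.filter (· ∣ m)).card ≤ b) → s * N * b < P.card →
      ∀ f : MvPolynomial (Fin n) ℂ, SCls N D s f →
        (f ≠ 0 ↔ ∃ x ∈ pts n N s P, eval (fun i => ((x i : ℕ) : ℂ)) f ≠ 0) := by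
    intro P b hP hb hcard f hf
    constructor
    · intro hf0
      obtain ⟨x, hx, hx'⟩ := hf.stame.hit hf0 P b hP hb hcard
      exact ⟨x, by rw [pts_eq n N D]; exact hx, hx'⟩
    · rintro ⟨x, -, hx⟩ h0
      rw [h0, map_zero] at hx
      exact hx rfl
  refine ⟨h1, ?_, ?_, ?_⟩
  · intro P
    have := Pool.Agent.H669R3.FewNeg.H_card (fun _ : Fin n => 0) N 0 D s P
    rw [← pts_eq, zero_add] at this
    exact this
  · intro P x hx
    rw [pts_eq n N D] at hx
    have := Pool.Agent.H669R3.FewNeg.H_bound _ N 0 D s P x hx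
    simpa only [mul_zero, add_zero, zero_add] using this
  · obtain ⟨p, hp, h2, h3⟩ := Nat.exists_prime_lt_and_le_two_mul (D + s * N * n + 1) (by omega)
    refine ⟨p, hp, by omega, h3, ?_⟩
    refine h1 {p} 0 ?_ ?_ ?_
    · intro q hq
      rw [Finset.mem_singleton] at hq
      subst hq
      exact ⟨hp, by omega⟩
    · intro m hm hmD
      rw [Nat.le_zero, Finset.card_eq_zero, Finset.filter_eq_empty_iff]
      intro q hq hqm
      rw [Finset.mem_singleton] at hq
      subst hq
      have := Nat.le_of_dvd hm hqm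
      omega
    · simp

end Pool.Agent.Results.MP_08e617_lc.AccretiveMonomials
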