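import Mathlib
import Pool.Agent.H820R5.BW.Rank
import Pool.Agent.H964R6.Fin
import Pool.Agent.Results.MP_e2be99_lc.TensorNetworks

/-!
# Singularity and rank of polynomial matrices of small branch-width

MP_08e617_lc asks for a deterministic test whether the determinant of a polynomial matrix is the
zero polynomial. We treat the polynomial matrices whose nonzero entries can be arranged at the
leaves of a binary tree such that for every subtree at most `w` rows and at most `w` columns have
nonzero entries both inside and outside of the subtree (the bipartite graph of the nonzero entries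
has branch-width at most `w`), up to unknown invertible constant row and column operations. There is
no restriction on the number of the entries in which a variable occurs. The size `s` is the sum of
the sizes of the entries; the size of an entry is the number of its variables if there are at most
`w²` of them, and otherwise the number of its pairs of a monomial and a variable of the monomial.
An explicit set of `(w s n d) ^ O(w √s + w²)` integer points decides whether such a matrix in `n`
variables with a determinant of degree at most `d` is singular, and a rectangular matrix of this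
kind attains its rank at one of the points.

So the exponent is polynomial in the width, and `O(√s)` for bounded width; it is `9 s ^ (2/3)` for
all matrices in `SubexponentialTest`. The main new step is the count of parameters `Dec.hasPar`:
with respect to a block of variables with `R` occurrences the determinant has `O(w² R)` parameters.
It uses a generalized Laplace expansion along the tree (`mn_union`), and the fact that the up to
`4 ^ (4 w)` minors of a constant matrix that matter between two cuts of the tree have `O(w²)`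
parameters (`minors_params`, by the Plücker relations).
-/

set_option autoImplicit false

namespace Pool.Agent.Results.MP_08e617_lc.BranchWidthMatrices

open MvPolynomial Pool.Agent.H964R6 Pool.Agent.H820R5.BW

open Pool.Agent.Results.MP_e2be99_lc.TensorNetworks (points points_card points_bound point block)

variable {F : Type*} [Field F]

/-- the matrix `P M Q` with constant `P`, `Q` -/
noncomputable def pmq {n a b : ℕ} (P : Matrix (Fin a) (Fin a) F)
    (M : Matrix (Fin a) (Fin b) (MvPolynomial (Fin n) F)) (Q : Matrix (Fin b) (Fin b) F) :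
    Matrix (Fin a) (Fin b) (MvPolynomial (Fin n) F) :=
  P.map (C : F →+* MvPolynomial (Fin n) F) * M * Q.map (C : F →+* MvPolynomial (Fin n) F)

/-- `Small w s M`: the nonzero entries of `M` have a branch decomposition of width at most `w`, and
the total size of the entries is at most `s`. -/
def Small {n a b : ℕ} (w s : ℕ) (M : Matrix (Fin a) (Fin b) (MvPolynomial (Fin n) F)) : Prop :=
  (∃ E, Dec M w E ∧ ∀ i j, M i j ≠ 0 → (i, j) ∈ E) ∧ tsize (w ^ 2) M ≤ s

/-- `Good w s M`: the matrix `P M Q` is `Small w s` for some invertible constant matrices `P`,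
`Q`. -/
def Good {n a b : ℕ} (w s : ℕ) (M : Matrix (Fin a) (Fin b) (MvPolynomial (Fin n) F)) : Prop :=
  ∃ (P : Matrix (Fin a) (Fin a) F) (Q : Matrix (Fin b) (Fin b) F), P.det ≠ 0 ∧ Q.det ≠ 0 ∧
    Small w s (pmq P M Q)

/-- the matrix `M` at the point `p` -/
noncomputable def at' {n a b : ℕ} (M : Matrix (Fin a) (Fin b) (MvPolynomial (Fin n) F))
    (p : Fin n → ℤ) : Matrix (Fin a) (Fin b) F := M.map (MvPolynomial.eval fun i => (p i : F))

/-- the rank of `M` as a matrix over the field of rational functions -/
noncomputable def genRank {n a b : ℕ} (M : Matrix (Fin a) (Fin b) (MvPolynomial (Fin n) F)) : ℕ :=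
  (M.map (algebraMap (MvPolynomial (Fin n) F) (FractionRing (MvPolynomial (Fin n) F)))).rank

/-- the number of occurrences in a block -/
def blk (w s : ℕ) : ℕ := Nat.sqrt s / w + 1

/-- the exponent -/
def expo (w s : ℕ) : ℕ := 81 * w * (Nat.sqrt s + w)

/-- the explicit set of points -/
def tests (n w s d : ℕ) : Finset (Fin n → ℤ) := points n d (s / blk w s) (ell w (blk w s))

theorem ell_add_le {w : ℕ} (hw : 1 ≤ w) (s : ℕ) :
    ell w (blk w s) + 4 * (s / blk w s) + 1 ≤ expo w s := by
  have h1 : w * blk w s ≤ Nat.sqrt s + w := by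
    have := Nat.div_mul_le_self (Nat.sqrt s) w
    unfold blk
    have e : w * (Nat.sqrt s / w + 1) = Nat.sqrt s / w * w + w := by ring
    omega
  have h2 : Nat.sqrt s + 1 ≤ w * blk w s := by
    have := Nat.lt_div_mul_add (a := Nat.sqrt s) (b := w) (by omega)
    unfold blk
    have e : w * (Nat.sqrt s / w + 1) = Nat.sqrt s / w * w + w := by ring
    omega
  have h3 : s / blk w s ≤ w * (Nat.sqrt s + 1) := by
    refine Nat.div_le_of_le_mul ?_
    calc s ≤ (Nat.sqrt s + 1) * (Nat.sqrt s + 1) := (Nat.lt_succ_sqrt s).le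
      _ ≤ (w * blk w s) * (Nat.sqrt s + 1) := Nat.mul_le_mul_right _ h2
      _ = blk w s * (w * (Nat.sqrt s + 1)) := by ring
  have h4 : ell w (blk w s) ≤ 76 * w * (Nat.sqrt s + w) := by
    unfold ell
    have hw2 : 1 ≤ w ^ 2 := Nat.one_le_pow _ _ hw
    calc (66 * w ^ 2 + 10) * blk w s ≤ (76 * w ^ 2) * blk w s :=
          Nat.mul_le_mul_right _ (by omega)
      _ = 76 * w * (w * blk w s) := by ring
      _ ≤ _ := Nat.mul_le_mul_left _ h1
  have h5 : w * 1 ≤ w * w := Nat.mul_le_mul_left _ hw
  have h6 : 81 * w * (Nat.sqrt s + w) = 76 * w * (Nat.sqrt s + w) + 5 * (w * Nat.sqrt s) +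
      5 * (w * w) := by ring
  have h7 : w * (Nat.sqrt s + 1) = w * Nat.sqrt s + w := by ring
  unfold expo
  omega

theorem one_le_ell (w s : ℕ) : 1 ≤ ell w (blk w s) := by
  unfold ell blk
  exact Nat.one_le_iff_ne_zero.2 (Nat.mul_ne_zero (Nat.succ_ne_zero _) (Nat.succ_ne_zero _))

theorem tests_card {w : ℕ} (hw : 1 ≤ w) (n s d : ℕ) :
    (tests n w s d).card ≤ (expo w s * (n + 1) * (d + 1)) ^ expo w s := by
  have h1 := ell_add_le hw s
  have h2 := one_le_ell w s
  refine (points_card n d _ _ h2).trans ?_
  have h3 : ell w (blk w s) * (n + 1) * (d + 1) ≤ expo w s * (n + 1) * (d + 1) := by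
    gcongr
    omega
  have h5 : expo w s ≠ 0 := by omega
  have h4 : 1 ≤ expo w s * (n + 1) * (d + 1) :=
    Nat.one_le_iff_ne_zero.2 (Nat.mul_ne_zero (Nat.mul_ne_zero h5 (Nat.succ_ne_zero n))
      (Nat.succ_ne_zero d))
  exact (Nat.pow_le_pow_left h3 _).trans (Nat.pow_le_pow_right h4 h1)

theorem tests_bound {w : ℕ} (hw : 1 ≤ w) (n s d : ℕ) (p : Fin n → ℤ) (hp : p ∈ tests n w s d)
    (i : Fin n) :
    |p i| ≤ ((expo w s * d * (expo w s * n * d + 1) ^ (expo w s * n) : ℕ) : ℤ) := by
  have h1 := ell_add_le hw s
  refine (points_bound n d _ _ p hp i).trans (Int.ofNat_le.2 ?_)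
  have h3 : ell w (blk w s) ≤ expo w s := by omega
  have h4 : ell w (blk w s) + s / blk w s ≤ expo w s := by omega
  gcongr
  omega

/-- A factor of a nonzero determinant does not vanish at all points of the set. -/
theorem small_hit [CharZero F] {n w s d N : ℕ} (hw : 1 ≤ w)
    {M : Matrix (Fin N) (Fin N) (MvPolynomial (Fin n) F)} (hM : Small w s M) (h0 : M.det ≠ 0)
    {f : MvPolynomial (Fin n) F} (hf : f ∣ M.det) (hd : f.totalDegree ≤ d) :
    ∃ p ∈ tests n w s d, MvPolynomial.eval (fun i => (p i : F)) f ≠ 0 := by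
  classical
  obtain ⟨⟨E, hE, hE2⟩, hs⟩ := hM
  by_contra hall
  push Not at hall
  obtain ⟨H, bl, hH, hbl, v, y, u, hv, hy, hu, hev⟩ := hE.seeds hw hE2 h0 hf s d (blk w s) hs
    (Nat.le_add_left 1 _) hd
  obtain ⟨β, hβ⟩ := Pool.Agent.H530R2.exists_breaks bl hbl
  obtain ⟨pos, hpos1, hpos2⟩ := Pool.Agent.H530R2.exists_slots H hH
  apply hev
  have hcomm : n * ell w (blk w s) * d = ell w (blk w s) * n * d := by ring
  have hmem : point pos (fun l => if h : (pos l : ℕ) < n then v ⟨pos l, h⟩ else 0) β y u ∈
      tests n w s d := by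
    unfold tests points
    rw [Finset.mem_image]
    refine ⟨⟨pos, fun l => ⟨if h : (pos l : ℕ) < n then v ⟨pos l, h⟩ else 0, ?_⟩, β,
      fun k => ⟨y k, Nat.lt_succ_of_le (hy k)⟩,
      fun c => ⟨u c, Nat.lt_succ_of_le (by rw [← hcomm]; exact hu c)⟩⟩, Finset.mem_univ _, rfl⟩
    split_ifs
    · exact Nat.lt_succ_of_le (hv _)
    · omega
  rw [← hall _ hmem]
  congr 2
  funext i
  have hblk : block β i = bl i := Fin.ext (hβ i)
  simp only [point]
  by_cases hi : i ∈ H
  · obtain ⟨l, hl⟩ := (hpos1 i).2 hi
    rw [if_pos hi, if_pos ⟨l, hl⟩, Finset.sum_eq_single l]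
    · rw [if_pos hl]
      have h1 : (pos l : ℕ) < n := by rw [hl]; exact i.isLt
      have h2 : (⟨pos l, h1⟩ : Fin n) = i := Fin.ext hl
      rw [dif_pos h1, h2]
      simp
    · intro l' _ hne'
      rw [if_neg]
      intro h
      exact hne' (hpos2 i l' l h hl)
    · simp
  · rw [if_neg hi, if_neg (fun h => hi ((hpos1 i).1 h)), hblk]
    push_cast
    rfl

theorem small_sub {n a b r w s : ℕ} {A : Matrix (Fin a) (Fin b) (MvPolynomial (Fin n) F)}
    (hA : Small w s A) {e : Fin r → Fin a} {f : Fin r → Fin b} (he : Function.Injective e)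
    (hf : Function.Injective f) : Small w s (A.submatrix e f) := by
  classical
  obtain ⟨⟨E, hE, hE2⟩, hs⟩ := hA
  refine ⟨⟨_, hE.sub he hf, fun i j hij => ?_⟩, le_trans ?_ hs⟩
  · rw [Finset.mem_filter]
    exact ⟨Finset.mem_univ _, hE2 _ _ hij⟩
  · unfold tsize
    have h1 : ∀ g : Fin a → ℕ, ∑ i, g (e i) ≤ ∑ i, g i := by
      intro g
      rw [← Finset.sum_image (f := g) (fun x _ y _ h => he h)]
      exact Finset.sum_le_sum_of_subset (Finset.subset_univ _)
    have h2 : ∀ g : Fin b → ℕ, ∑ i, g (f i) ≤ ∑ i, g i := by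
      intro g
      rw [← Finset.sum_image (f := g) (fun x _ y _ h => hf h)]
      exact Finset.sum_le_sum_of_subset (Finset.subset_univ _)
    refine le_trans (Finset.sum_le_sum fun i _ => h2 fun j => esize (w ^ 2) (A (e i) j)) ?_
    exact h1 fun i => ∑ j, esize (w ^ 2) (A i j)

theorem totalDegree_det_le {n r δ : ℕ} (A : Matrix (Fin r) (Fin r) (MvPolynomial (Fin n) F))
    (h : ∀ i j, (A i j).totalDegree ≤ δ) : A.det.totalDegree ≤ r * δ := by
  rw [Matrix.det_apply]
  refine totalDegree_finsetSum_le fun σ _ => ?_
  refine (totalDegree_smul_le _ _).trans ((totalDegree_finsetProd _ _).trans ?_)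
  refine (Finset.sum_le_sum fun i _ => h _ _).trans ?_
  simp

theorem totalDegree_pmq {n a b δ : ℕ} (M : Matrix (Fin a) (Fin b) (MvPolynomial (Fin n) F))
    (h : ∀ i j, (M i j).totalDegree ≤ δ) (P : Matrix (Fin a) (Fin a) F)
    (Q : Matrix (Fin b) (Fin b) F) (i : Fin a) (j : Fin b) :
    (pmq P M Q i j).totalDegree ≤ δ := by
  unfold pmq
  rw [Matrix.mul_apply]
  refine totalDegree_finsetSum_le fun k _ => ?_
  refine (totalDegree_mul _ _).trans ?_
  rw [Matrix.map_apply, totalDegree_C, add_zero, Matrix.mul_apply]
  refine totalDegree_finsetSum_le fun l _ => ?_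
  refine (totalDegree_mul _ _).trans ?_
  rw [Matrix.map_apply, totalDegree_C, zero_add]
  exact h _ _

theorem det_pmq {n N : ℕ} (P Q : Matrix (Fin N) (Fin N) F)
    (M : Matrix (Fin N) (Fin N) (MvPolynomial (Fin n) F)) :
    (pmq P M Q).det = C P.det * M.det * C Q.det := by
  unfold pmq
  rw [Matrix.det_mul, Matrix.det_mul, (C : F →+* MvPolynomial (Fin n) F).map_det P,
    (C : F →+* MvPolynomial (Fin n) F).map_det Q]
  rfl

/-- the rank of `P M Q`, after a ring homomorphism to a field -/
theorem rank_pmq {n a b : ℕ} {K : Type*} [Field K] (φ : MvPolynomial (Fin n) F →+* K)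
    {P : Matrix (Fin a) (Fin a) F} {Q : Matrix (Fin b) (Fin b) F}
    (M : Matrix (Fin a) (Fin b) (MvPolynomial (Fin n) F)) (hP : P.det ≠ 0) (hQ : Q.det ≠ 0) :
    ((pmq P M Q).map φ).rank = (M.map φ).rank := by
  unfold pmq
  rw [Matrix.map_mul, Matrix.map_mul]
  have h1 : ∀ {k : ℕ} (R : Matrix (Fin k) (Fin k) F), R.det ≠ 0 →
      ((R.map (C : F →+* MvPolynomial (Fin n) F)).map φ).det ≠ 0 := by
    intro k R hR
    have e : ((R.map (C : F →+* MvPolynomial (Fin n) F)).map φ).det =
        (φ.comp (C : F →+* MvPolynomial (Fin n) F)) R.det := by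
      rw [RingHom.map_det]
      rfl
    rw [e]
    exact (map_ne_zero _).2 hR
  rw [Matrix.rank_mul_eq_left_of_isUnit_det _ _ (isUnit_iff_ne_zero.2 (h1 Q hQ)),
    Matrix.rank_mul_eq_right_of_isUnit_det _ _ (isUnit_iff_ne_zero.2 (h1 P hP))]

/-- a minor of `M` at a point -/
theorem minor_at {n a b r : ℕ} (M : Matrix (Fin a) (Fin b) (MvPolynomial (Fin n) F))
    {K : Type*} [Field K] (φ : MvPolynomial (Fin n) F →+* K) (e : Fin r → Fin a)
    (f : Fin r → Fin b) : ((M.map φ).submatrix e f).det = φ (M.submatrix e f).det := by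
  rw [RingHom.map_det]
  rfl

theorem rank_at_le {n a b : ℕ} (M : Matrix (Fin a) (Fin b) (MvPolynomial (Fin n) F))
    (p : Fin n → ℤ) : (at' M p).rank ≤ genRank M := by
  obtain ⟨e, f, hef⟩ := exists_minor (at' M p)
  unfold genRank
  refine le_rank_of_minor _ e f ?_
  rw [minor_at]
  have hef' : (MvPolynomial.eval fun i => (p i : F)) (M.submatrix e f).det ≠ 0 := by
    rw [← minor_at]
    exact hef
  intro h0
  apply hef'
  have : (M.submatrix e f).det = 0 := by
    rwa [map_eq_zero_iff _ (IsFractionRing.injective (MvPolynomial (Fin n) F)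
      (FractionRing (MvPolynomial (Fin n) F)))] at h0
  rw [this, map_zero]

/-- **Singularity and rank of polynomial matrices of small branch-width.** The explicit set
`tests n w s d ⊆ ℤ^n` of at most `(L (n+1) (d+1)) ^ L` points, `L = 81 w (⌊√s⌋ + w)`, has the
following properties over every field of characteristic zero.

* A square polynomial matrix with `Good w s` and a determinant of degree at most `d` is nonsingular
  if and only if it is nonsingular at a point of the set. More generally the set hits every
  polynomial of degree at most `d` which divides the nonzero determinant of a matrix with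
  `Good w s`.
* For a rectangular polynomial matrix `M` with `Good w s` and entries of degree at most `δ`, where
  `min a b * δ ≤ d`, the rank of `M` over the rational functions is the maximum of the ranks of `M`
  at the points of the set. -/
theorem result [CharZero F] (n w s d : ℕ) (hw : 1 ≤ w) :
    (tests n w s d).card ≤ (expo w s * (n + 1) * (d + 1)) ^ expo w s ∧
    (∀ p ∈ tests n w s d, ∀ i,
      |p i| ≤ ((expo w s * d * (expo w s * n * d + 1) ^ (expo w s * n) : ℕ) : ℤ)) ∧
    (∀ (N : ℕ) (M : Matrix (Fin N) (Fin N) (MvPolynomial (Fin n) F)), Good w s M →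
      M.det ≠ 0 → ∀ f : MvPolynomial (Fin n) F, f ∣ M.det → f.totalDegree ≤ d →
      ∃ p ∈ tests n w s d, MvPolynomial.eval (fun i => (p i : F)) f ≠ 0) ∧
    (∀ (N : ℕ) (M : Matrix (Fin N) (Fin N) (MvPolynomial (Fin n) F)), Good w s M →
      M.det.totalDegree ≤ d → (M.det ≠ 0 ↔ ∃ p ∈ tests n w s d, (at' M p).det ≠ 0)) ∧
    ∀ (a b δ : ℕ) (M : Matrix (Fin a) (Fin b) (MvPolynomial (Fin n) F)), Good w s M →
      (∀ i j, (M i j).totalDegree ≤ δ) → min a b * δ ≤ d →
      (∀ p, (at' M p).rank ≤ genRank M) ∧ ∃ p ∈ tests n w s d, (at' M p).rank = genRank M := by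
  classical
  have key : ∀ (N : ℕ) (M : Matrix (Fin N) (Fin N) (MvPolynomial (Fin n) F)), Good w s M →
      M.det ≠ 0 → ∀ f : MvPolynomial (Fin n) F, f ∣ M.det → f.totalDegree ≤ d →
      ∃ p ∈ tests n w s d, MvPolynomial.eval (fun i => (p i : F)) f ≠ 0 := by
    rintro N M ⟨P, Q, hP, hQ, hN⟩ h0 f hf hd
    refine small_hit hw hN ?_ ?_ hd
    · rw [det_pmq]
      exact mul_ne_zero (mul_ne_zero (fun h => hP (C_eq_zero.1 h)) h0)
        (fun h => hQ (C_eq_zero.1 h))
    · rw [det_pmq]
      exact (hf.mul_left _).mul_right _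
  refine ⟨tests_card hw n s d, tests_bound hw n s d, key, ?_, ?_⟩
  · intro N M hM hd
    have hev : ∀ p : Fin n → ℤ, (at' M p).det =
        MvPolynomial.eval (fun i => (p i : F)) M.det := fun p =>
      ((MvPolynomial.eval fun i => (p i : F)).map_det M).symm
    constructor
    · intro h0
      obtain ⟨p, hp, hpe⟩ := key N M hM h0 M.det dvd_rfl hd
      exact ⟨p, hp, by rw [hev]; exact hpe⟩
    · rintro ⟨p, _, hpe⟩ h0
      rw [hev, h0, map_zero] at hpe
      exact hpe rfl
  · rintro a b δ M ⟨P, Q, hP, hQ, hN⟩ hδ hd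
    refine ⟨rank_at_le M, ?_⟩
    -- a nonzero minor of `P M Q` whose size is the rank
    obtain ⟨e, f, hef⟩ := exists_minor ((pmq P M Q).map (algebraMap (MvPolynomial (Fin n) F)
      (FractionRing (MvPolynomial (Fin n) F))))
    have hr : ((pmq P M Q).map (algebraMap (MvPolynomial (Fin n) F)
        (FractionRing (MvPolynomial (Fin n) F)))).rank = genRank M := rank_pmq _ M hP hQ
    rw [minor_at] at hef
    have hdet : ((pmq P M Q).submatrix e f).det ≠ 0 := fun h => hef (by rw [h, map_zero])
    have he : Function.Injective e := by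
      intro i i' h
      by_contra hne
      exact hdet (Matrix.det_zero_of_row_eq hne (by
        funext j; simp [Matrix.submatrix_apply, h]))
    have hf : Function.Injective f := by
      intro i i' h
      by_contra hne
      exact hdet (Matrix.det_zero_of_column_eq hne (by
        intro j; simp [Matrix.submatrix_apply, h]))
    have hrle : ((pmq P M Q).map (algebraMap (MvPolynomial (Fin n) F)
        (FractionRing (MvPolynomial (Fin n) F)))).rank ≤ min a b := by
      refine le_min ?_ ?_
      · simpa using Fintype.card_le_of_injective e he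
      · simpa using Fintype.card_le_of_injective f hf
    obtain ⟨p, hp, hpe⟩ := small_hit hw (small_sub hN he hf) hdet dvd_rfl
      ((totalDegree_det_le _ fun i j => totalDegree_pmq M hδ P Q _ _).trans
        ((Nat.mul_le_mul_right _ hrle).trans hd))
    refine ⟨p, hp, le_antisymm (rank_at_le M p) ?_⟩
    rw [← hr]
    have h2 : (at' M p).rank = ((pmq P M Q).map (MvPolynomial.eval fun i => (p i : F))).rank :=
      (rank_pmq (MvPolynomial.eval fun i => (p i : F)) M hP hQ).symm
    rw [h2]
    refine le_rank_of_minor _ e f ?_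
    rw [minor_at]
    exact hpe

/-- Remark: places which can be listed one after the other so that at most `w` rows and at most `w`
columns cross each cut of the list have a branch decomposition of width `w`. -/
theorem dec_of_list {n a b w : ℕ} {M : Matrix (Fin a) (Fin b) (MvPolynomial (Fin n) F)}
    (l : List (Fin a × Fin b)) (hl : l.Nodup)
    (h : ∀ l', l' <:+ l → (crossRows M l'.toFinset).card ≤ w ∧ (crossCols M l'.toFinset).card ≤ w) :
    Dec M w l.toFinset := by
  classical
  induction l with
  | nil => exact Dec.empty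
  | cons x l ih =>
    rw [List.nodup_cons] at hl
    have h1 : (x :: l).toFinset = {x} ∪ l.toFinset := by
      rw [List.toFinset_cons]
      rfl
    have h2 := h (x :: l) (List.suffix_refl _)
    rw [h1] at h2 ⊢
    refine Dec.union (Dec.leaf x) (ih hl.2 fun l' hl' => h l' (hl'.trans (List.suffix_cons x l)))
      ?_ h2.1 h2.2
    rw [Finset.disjoint_singleton_left, List.mem_toFinset]
    exact hl.1

end Pool.Agent.Results.MP_08e617_lc.BranchWidthMatrices
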