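import Pool.Agent.H442R3.SP.Alg

/-!
# Singularity of polynomial matrices with semidefinite symmetric and rank-two skew coefficients

We give a deterministic polynomial-time algorithm which decides whether a polynomial matrix
`M = ∑ x^α A_α` is singular, for all `M` in the following class: (i) for some signs of the variables
all coefficient matrices `A_α`, multiplied by the sign of the monomial `x^α`, have a positive
semidefinite symmetric part (of arbitrary rank); (ii) every `A_α` has a skew part of rank at most
two; (iii) every monomial `x^α` whose coefficient matrix is not symmetric has a private variable: it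
occurs in `x^α` with exponent one and in no other such monomial.

The algorithm tries all primes `p` of a polynomial range.  Modulo `p` it considers the following
lines of a vector space of dimension `2n`: for every monomial `α` and every nonzero entry `(i, j)`
of `A_α - A_αᵀ` the line spanned by rows `i` and `j` of this matrix, and all lines spanned by two
vectors among the rows of all matrices `A_α + A_αᵀ` and `n` new unit vectors.  It accepts if for
some `p` there are `n` linearly independent lines (matroid parity problem).
-/

namespace Pool.Agent.Results.MP_08e617_lc.SemidefiniteMonomials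

open Pool.Agent.NPC Pool.Agent.H442R3.SP Matrix

/-- Encoding of a polynomial matrix: the list of the rows; every row is the list of its entries;
every entry is a list of terms (coefficient, monomial); a monomial is the list of its variables, with
repetitions (so that exponents are written in unary). -/
abbrev Inst : Type := List (List (List (ℤ × List ℕ)))

/-- all rows have length `n`, where `n` is the number of rows -/
def IsSquare (I : Inst) : Prop := ∀ r ∈ I, r.length = I.length

/-- normal form: in every monomial the variables are listed in nondecreasing order -/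
def NormalForm (I : Inst) : Prop := ∀ r ∈ I, ∀ e ∈ r, ∀ q ∈ e, q.2.Pairwise (· ≤ ·)

/-- the polynomial encoded by a list of terms -/
noncomputable def polyOf (l : List (ℤ × List ℕ)) : MvPolynomial ℕ ℤ :=
  (l.map (fun q => MvPolynomial.C q.1 * (q.2.map MvPolynomial.X).prod)).sum

/-- the polynomial matrix -/
noncomputable def polynomialMatrix (I : Inst) :
    Matrix (Fin I.length) (Fin I.length) (MvPolynomial ℕ ℤ) :=
  Matrix.of fun i j => polyOf ((I.getD i []).getD j [])

/-- the coefficient matrix `A_α` of the monomial `x^α` -/
noncomputable def coeffMatrix (I : Inst) (α : ℕ →₀ ℕ) :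
    Matrix (Fin I.length) (Fin I.length) ℤ :=
  Matrix.of fun i j => (polynomialMatrix I i j).coeff α

/-- the value of the monomial `x^α` at the point `ε` -/
noncomputable def monomialValue (ε : ℕ → ℤ) (α : ℕ →₀ ℕ) : ℤ :=
  MvPolynomial.eval ε (MvPolynomial.monomial α 1)

/-- (i) for some signs of the variables all coefficient matrices, multiplied by the signs of their
monomials, have a positive semidefinite symmetric part -/
def SignSemidefinite (I : Inst) : Prop :=
  ∃ ε : ℕ → ℤ, (∀ i, ε i = 1 ∨ ε i = -1) ∧ ∀ α,
    ((monomialValue ε α • (coeffMatrix I α + (coeffMatrix I α)ᵀ)).map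
      (Int.cast : ℤ → ℝ)).PosSemidef

/-- (ii) all skew parts have rank at most two -/
def SkewPartsRankLeTwo (I : Inst) : Prop :=
  ∀ α, ((coeffMatrix I α - (coeffMatrix I α)ᵀ).map (Int.cast : ℤ → ℝ)).rank ≤ 2

/-- (iii) every monomial whose coefficient matrix is not symmetric has a private variable: it has
exponent one in this monomial, and exponent zero in all other monomials whose coefficient matrix is
not symmetric -/
def PrivateVariables (I : Inst) : Prop :=
  ∃ v : (ℕ →₀ ℕ) → ℕ, ∀ α, coeffMatrix I α ≠ (coeffMatrix I α)ᵀ → α (v α) = 1 ∧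
    ∀ β, β ≠ α → coeffMatrix I β ≠ (coeffMatrix I β)ᵀ → β (v α) = 0

/-- the total bit length of the encoding (every coefficient and every variable index takes its binary
length, and every occurrence of a variable, every term, every entry and every row takes one more
bit) -/
def bitLength (I : Inst) : ℕ :=
  (I.map (fun r => 1 + (r.map (fun e =>
    1 + (e.map (fun q => 1 + q.1.natAbs.size + (q.2.map (fun i => 1 + i.size)).sum)).sum)).sum)).sum

/-- the exponent vector of a list of variables -/
noncomputable def expo (k : List ℕ) : ℕ →₀ ℕ := Multiset.toFinsupp (k : Multiset ℕ)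

theorem expo_cons (a : ℕ) (k : List ℕ) : expo (a :: k) = Finsupp.single a 1 + expo k := by
  rw [expo, expo, ← Multiset.cons_coe, ← Multiset.singleton_add, Multiset.toFinsupp_add,
    Multiset.toFinsupp_singleton]

theorem prod_X (k : List ℕ) :
    (k.map (MvPolynomial.X : ℕ → MvPolynomial ℕ ℤ)).prod = MvPolynomial.monomial (expo k) 1 := by
  induction k with
  | nil =>
    rw [expo]
    simp
  | cons a k ih =>
    rw [List.map_cons, List.prod_cons, ih, expo_cons, MvPolynomial.X, MvPolynomial.monomial_mul,
      one_mul]

theorem expo_inj {k k' : List ℕ} (hk : k.Pairwise (· ≤ ·)) (hk' : k'.Pairwise (· ≤ ·))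
    (h : expo k = expo k') : k = k' := by
  have h1 : (k : Multiset ℕ) = k' := Multiset.toFinsupp.injective h
  exact (Multiset.coe_eq_coe.1 h1).eq_of_pairwise' hk hk'

theorem expo_apply (k : List ℕ) (i : ℕ) : expo k i = k.count i := by
  rw [expo, Multiset.toFinsupp_apply, Multiset.coe_count]

theorem monomialValue_expo (ε : ℕ → ℤ) (k : List ℕ) : monomialValue ε (expo k) = mon ε k := by
  rw [monomialValue, ← prod_X, map_list_prod, List.map_map, mon]
  congr 1
  apply List.map_congr_left
  intro i _
  simp

theorem sorted_of_mem {I : Inst} (hN : NormalForm I) {k : List ℕ} (hk : k ∈ vrs I) :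
    k.Pairwise (· ≤ ·) := by
  rw [vrs, List.mem_flatMap] at hk
  obtain ⟨r, hr, hk⟩ := hk
  rw [List.mem_flatMap] at hk
  obtain ⟨e, he, hk⟩ := hk
  obtain ⟨q, hq, rfl⟩ := List.mem_map.1 hk
  exact hN r hr e he q hq

theorem coeffMatrix_eq (I : Inst) (hN : NormalForm I) (k : List ℕ) (hk : k ∈ vrs I)
    (i j : Fin I.length) : coeffMatrix I (expo k) i j = CC I k i j := by
  rw [coeffMatrix, Matrix.of_apply, polynomialMatrix, Matrix.of_apply, CC, cof, polyOf]
  have hk' := sorted_of_mem hN hk
  have hl : ∀ q ∈ ety I i j, q.2.Pairwise (· ≤ ·) := fun q hq => sorted_of_mem hN (mem_vrs hq)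
  rw [ety] at *
  generalize (I.getD i []).getD j [] = l at hl
  induction l with
  | nil => simp [cfl]
  | cons q l ih =>
    rw [List.map_cons, List.sum_cons, MvPolynomial.coeff_add,
      ih (fun q hq => hl q (List.mem_cons_of_mem _ hq)), cfl_cons, MvPolynomial.coeff_C_mul,
      prod_X, MvPolynomial.coeff_monomial]
    congr 1
    by_cases h : q.2 = k
    · rw [if_pos (by rw [h]), if_pos h, mul_one]
    · rw [if_neg (fun h' => h (expo_inj (hl q List.mem_cons_self) hk' h')), if_neg h, mul_zero]

theorem eval_det (I : Inst) (z : ℕ → ℤ) :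
    MvPolynomial.eval z (polynomialMatrix I).det = (MM (KK I) (CC I) (mon z)).det := by
  rw [RingHom.map_det]
  congr 1
  ext i j
  rw [RingHom.mapMatrix_apply, Matrix.map_apply, polynomialMatrix, Matrix.of_apply, polyOf, MM,
    map_list_sum, List.map_map]
  have h := ev_eq ((I.getD i []).getD j []) (KK I)
    (fun q hq => List.mem_toFinset.2 (mem_vrs (I := I) (i := i) (j := j) hq)) (mon z)
  refine Eq.trans ?_ h
  congr 1
  apply List.map_congr_left
  intro q _
  rw [Function.comp_apply, map_mul, MvPolynomial.eval_C, map_list_prod, List.map_map, mon]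
  congr 2
  apply List.map_congr_left
  intro i _
  simp

theorem det_ne_zero_iff (I : Inst) :
    (polynomialMatrix I).det ≠ 0 ↔ ∃ z : ℕ → ℤ, (MM (KK I) (CC I) (mon z)).det ≠ 0 := by
  constructor
  · intro h
    by_contra hcon
    push Not at hcon
    apply h
    apply MvPolynomial.funext
    intro x
    rw [eval_det, hcon x, map_zero]
  · rintro ⟨x, hx⟩ h
    apply hx
    rw [← eval_det, h, map_zero]

theorem form_nonneg {n : ℕ} (A : Matrix (Fin n) (Fin n) ℤ) (s : ℤ)
    (h : ((s • (A + Aᵀ)).map (Int.cast : ℤ → ℝ)).PosSemidef) (v : Fin n → ℤ) :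
    0 ≤ s * ∑ i, ∑ j, v i * A i j * v j := by
  have h1 := h.dotProduct_mulVec_nonneg (fun i => (v i : ℝ))
  have h2 : star (fun i => (v i : ℝ)) ⬝ᵥ ((s • (A + Aᵀ)).map (Int.cast : ℤ → ℝ)) *ᵥ
      (fun i => (v i : ℝ)) = ((2 * (s * ∑ i, ∑ j, v i * A i j * v j) : ℤ) : ℝ) := by
    have h3 : (2 * (s * ∑ i, ∑ j, v i * A i j * v j) : ℤ) =
        ∑ i, v i * ∑ j, (s * (A i j + A j i)) * v j := by
      simp only [Finset.mul_sum, add_mul, mul_add, Finset.sum_add_distrib]
      have h4 : ∑ i, ∑ j, v i * (s * A j i * v j) = ∑ i, ∑ j, v i * (s * A i j * v j) := by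
        rw [Finset.sum_comm]
        apply Finset.sum_congr rfl
        intro i _
        apply Finset.sum_congr rfl
        intro j _
        ring
      rw [h4, ← Finset.sum_add_distrib]
      apply Finset.sum_congr rfl
      intro i _
      rw [← Finset.sum_add_distrib]
      apply Finset.sum_congr rfl
      intro j _
      ring
    rw [h3]
    simp only [dotProduct, Matrix.mulVec, Matrix.map_apply, Matrix.add_apply, Matrix.smul_apply,
      Matrix.transpose_apply, Pi.star_apply, star_trivial, smul_eq_mul]
    push_cast
    rfl
  rw [h2] at h1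
  have h5 : (0 : ℤ) ≤ 2 * (s * ∑ i, ∑ j, v i * A i j * v j) := by exact_mod_cast h1
  omega

theorem skw_iff (I : Inst) (hN : NormalForm I) (k : List ℕ) (hk : k ∈ vrs I) :
    Skw (CC I) k ↔ coeffMatrix I (expo k) ≠ (coeffMatrix I (expo k))ᵀ := by
  rw [Skw, ← not_iff_not]
  push Not
  constructor
  · intro h
    ext i j
    rw [Matrix.transpose_apply, coeffMatrix_eq I hN k hk, coeffMatrix_eq I hN k hk]
    exact h i j
  · intro h i j
    have h1 := congrFun (congrFun h i) j
    rwa [Matrix.transpose_apply, coeffMatrix_eq I hN k hk, coeffMatrix_eq I hN k hk] at h1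

theorem cls_of (I : Inst) (hN : NormalForm I) (h1 : SignSemidefinite I) (h3 : PrivateVariables I) :
    Cls (KK I) (CC I) := by
  constructor
  · obtain ⟨ε, hε, h⟩ := h1
    refine ⟨ε, hε, fun k hk w => ?_⟩
    have hk' : k ∈ vrs I := List.mem_toFinset.1 hk
    have h4 := form_nonneg _ _ (h (expo k)) w
    simpa only [monomialValue_expo, coeffMatrix_eq I hN k hk'] using h4
  · obtain ⟨v, hv⟩ := h3
    refine ⟨fun k => v (expo k), fun k hk hsk => ?_⟩
    have hk' : k ∈ vrs I := List.mem_toFinset.1 hk
    obtain ⟨h4, h5⟩ := hv (expo k) ((skw_iff I hN k hk').1 hsk)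
    rw [expo_apply] at h4
    refine ⟨h4, fun k' hk2 hsk' hne hmem => ?_⟩
    have hk2' : k' ∈ vrs I := List.mem_toFinset.1 hk2
    have h6 := h5 (expo k') (fun h => hne (expo_inj (sorted_of_mem hN hk2') (sorted_of_mem hN hk') h))
      ((skw_iff I hN k' hk2').1 hsk')
    rw [expo_apply, List.count_eq_zero] at h6
    exact h6 hmem

theorem pf_of (I : Inst) (hN : NormalForm I) (h : SkewPartsRankLeTwo I) : Pf I := by
  intro k i j a b hi hj ha hb
  by_cases hk : k ∈ vrs I
  · have h1 := Pool.Agent.H442R3.SD.pf_of_rank
      (coeffMatrix I (expo k) - (coeffMatrix I (expo k))ᵀ) (fun i j => by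
      simp only [Matrix.sub_apply, Matrix.transpose_apply]
      ring) (h (expo k)) ⟨i, hi⟩ ⟨j, hj⟩ ⟨a, ha⟩ ⟨b, hb⟩
    simp only [Matrix.sub_apply, Matrix.transpose_apply, coeffMatrix_eq I hN k hk, CC] at h1
    exact h1
  · simp only [cof_eq_zero I k hk, sub_self, mul_zero, add_zero]

/-- the length of the encoding is linear in the total bit length -/
theorem size_bound (I : Inst) : (bits I).length ≤ 9 * bitLength I + 1 := by
  rw [bits_length]
  have hgen : ∀ {α : Type} [TEnc α] (f : α → ℕ) (l : List α), (∀ a, sz a + 1 ≤ 9 * f a) →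
      sz l ≤ 9 * (l.map f).sum + 1 := by
    intro α _ f l hf
    induction l with
    | nil => simp
    | cons a l ih =>
      have := hf a
      rw [sz_list_cons, List.map_cons, List.sum_cons]
      omega
  have hgen4 : ∀ l : List ℕ, sz l ≤ 4 * (l.map (fun i => 1 + i.size)).sum + 1 := by
    intro l
    induction l with
    | nil => simp
    | cons a l ih =>
      have := sz_nat_le a
      rw [sz_list_cons, List.map_cons, List.sum_cons]
      omega
  have hpair : ∀ q : ℤ × List ℕ, sz q + 1 ≤
      9 * (1 + q.1.natAbs.size + (q.2.map (fun i => 1 + i.size)).sum) := by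
    intro q
    have h1 : sz q = sz q.1 + sz q.2 + 1 := sz_pair q.1 q.2
    have h2 : sz q.1 = sz (decide (q.1 < 0)) + sz q.1.natAbs + 1 := by
      rw [sz_int, sz_pair]
    have h3 := sz_bool_le (decide (q.1 < 0))
    have h4 := sz_nat_le q.1.natAbs
    have h5 := hgen4 q.2
    omega
  have hent : ∀ e : List (ℤ × List ℕ), sz e + 1 ≤ 9 * (1 + (e.map (fun q =>
      1 + q.1.natAbs.size + (q.2.map (fun i => 1 + i.size)).sum)).sum) := by
    intro e
    have := hgen (fun q : ℤ × List ℕ => 1 + q.1.natAbs.size + (q.2.map (fun i => 1 + i.size)).sum)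
      e hpair
    omega
  have hrow : ∀ r : List (List (ℤ × List ℕ)), sz r + 1 ≤ 9 * (1 + (r.map (fun e =>
      1 + (e.map (fun q =>
        1 + q.1.natAbs.size + (q.2.map (fun i => 1 + i.size)).sum)).sum)).sum) := by
    intro r
    have := hgen (fun e : List (ℤ × List ℕ) => 1 + (e.map (fun q =>
      1 + q.1.natAbs.size + (q.2.map (fun i => 1 + i.size)).sum)).sum) r hent
    omega
  exact hgen _ I hrow

/-- **Singularity of polynomial matrices with sign-semidefinite symmetric parts and rank-two skew
parts.**  There is a deterministic polynomial-time algorithm which, on the encoding of every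
polynomial matrix in the class (i)-(iii), decides whether the input is square and nonsingular.  The
length of the encoding is linear in the total bit length. -/
theorem result :
    (∃ g : List Bool → Bool, PolyTime (fun x => [g x]) ∧ ∀ I : Inst, NormalForm I →
      SignSemidefinite I → SkewPartsRankLeTwo I → PrivateVariables I →
      (g (bits I) = true ↔ IsSquare I ∧ (polynomialMatrix I).det ≠ 0)) ∧
    (∀ I : Inst, (bits I).length ≤ 9 * bitLength I + 1) := by
  refine ⟨⟨fun x => (unbits Inst x).elim false (fun I =>
    I.all (fun r => decide (r.length = I.length)) && algo I x.length), ?_,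
    fun I hN h1 h2 h3 => ?_⟩, size_bound⟩
  · apply polyTime_of_poly
    refine NPC.Poly.optElim (o := fun x => unbits Inst x) (h := fun x I =>
      I.all (fun r => decide (r.length = I.length)) && algo I x.length) poly_unbits
      (NPC.Poly.const false) ?_
    refine NPC.Poly.and ?_ ?_
    · fun_prop
    · exact poly_algo (NPC.Poly.snd NPC.Poly.id) (UPoly.length (NPC.Poly.fst NPC.Poly.id))
  · simp only [unbits_bits, Option.elim]
    rw [Bool.and_eq_true, bits_length, algo_correct I (pf_of I hN h2) (cls_of I hN h1 h3),
      ← det_ne_zero_iff]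
    refine and_congr ?_ Iff.rfl
    rw [List.all_eq_true, IsSquare]
    simp only [decide_eq_true_eq]

end Pool.Agent.Results.MP_08e617_lc.SemidefiniteMonomials
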